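import Pool.Agent.TH285.SN.Odd

set_option autoImplicit false

/-!
# Four pairwise coprime integers with sum zero

`(5 X + 18) ^ 5 X ^ 4 - (5 X + 2) ^ 5 (X + 4) ^ 4 + 3 (17 X ^ 2 + 68 X + 4) ^ 3
  + (21 X ^ 2 + 84 X + 20) ^ 3 = 0`.
-/

namespace Pool.Agent.Y912.SN4

open Pool.Agent.TH285.SN

/-- the quadruple -/
def quad (X : ℤ) : Fin 4 → ℤ :=
  ![(5 * X + 18) ^ 5 * X ^ 4, -((5 * X + 2) ^ 5 * (X + 4) ^ 4),
    3 * (17 * X ^ 2 + 68 * X + 4) ^ 3, (21 * X ^ 2 + 84 * X + 20) ^ 3]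

theorem sum_quad (X : ℤ) : ∑ i, quad X i = 0 := by
  rw [Fin.sum_univ_four]
  show (5 * X + 18) ^ 5 * X ^ 4 + -((5 * X + 2) ^ 5 * (X + 4) ^ 4) +
    3 * (17 * X ^ 2 + 68 * X + 4) ^ 3 + (21 * X ^ 2 + 84 * X + 20) ^ 3 = 0
  ring

/-- from a relation `α u + β v = c` with `u` prime to `c` -/
theorem cop_of_rel {u v c : ℤ} (hc : IsCoprime u c) (α β : ℤ) (h : α * u + β * v = c) :
    IsCoprime u v := by
  rw [← h] at hc
  have h1 : IsCoprime u (β * v) := by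
    have := hc.add_mul_left_right (-α)
    have e : α * u + β * v + u * -α = β * v := by ring
    rwa [e] at this
  exact h1.of_mul_right_right

theorem quad_cop {X : ℤ} (h2 : IsCoprime X 2) (h30 : (3 : ℤ) ∣ X - 1)
    (h5 : IsCoprime X 5) (h5' : IsCoprime (X + 4) 5) :
    ∀ i j : Fin 4, i < j → IsCoprime (quad X i) (quad X j) := by
  obtain ⟨z, hz⟩ := h30
  have hX : X = 1 + 3 * z := by linarith
  have two_pow : ∀ (u : ℤ) (n : ℕ), IsCoprime u 2 → IsCoprime u (2 ^ n) :=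
    fun u n h => h.pow_right
  -- odd factors
  have a2 : IsCoprime (5 * X + 18) 2 := by
    have h1 : IsCoprime (5 * X) 2 := (by norm_num : IsCoprime (5 : ℤ) 2).mul_left h2
    have := h1.add_mul_right_left 9
    have e : 5 * X + 9 * 2 = 5 * X + 18 := by ring
    rwa [e] at this
  have b2 : IsCoprime (5 * X + 2) 2 := by
    have h1 : IsCoprime (5 * X) 2 := (by norm_num : IsCoprime (5 : ℤ) 2).mul_left h2
    have := h1.add_mul_right_left 1
    have e : 5 * X + 1 * 2 = 5 * X + 2 := by ring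
    rwa [e] at this
  have d2 : IsCoprime (X + 4) 2 := by
    have := h2.add_mul_right_left 2
    have e : X + 2 * 2 = X + 4 := by ring
    rwa [e] at this
  have q2 : IsCoprime (17 * X ^ 2 + 68 * X + 4) 2 := by
    have h1 : IsCoprime (17 * X ^ 2) 2 := (by norm_num : IsCoprime (17 : ℤ) 2).mul_left h2.pow_left
    have := h1.add_mul_right_left (34 * X + 2)
    have e : 17 * X ^ 2 + (34 * X + 2) * 2 = 17 * X ^ 2 + 68 * X + 4 := by ring
    rwa [e] at this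
  -- factors prime to 3
  have t3 : ∀ u c w : ℤ, IsCoprime c 3 → u = c + w * 3 → IsCoprime u 3 := by
    intro u c w h e
    rw [e]; exact h.add_mul_right_left w
  have x3 : IsCoprime X 3 := t3 _ 1 z isCoprime_one_left (by rw [hX]; ring)
  have a3 : IsCoprime (5 * X + 18) 3 := t3 _ 2 (7 + 5 * z) (by norm_num) (by rw [hX]; ring)
  have b3 : IsCoprime (5 * X + 2) 3 := t3 _ 1 (2 + 5 * z) isCoprime_one_left (by rw [hX]; ring)
  have d3 : IsCoprime (X + 4) 3 := t3 _ 2 (1 + z) (by norm_num) (by rw [hX]; ring)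
  have r3 : IsCoprime (21 * X ^ 2 + 84 * X + 20) 3 :=
    t3 _ 2 (7 * X ^ 2 + 28 * X + 6) (by norm_num) (by ring)
  -- pairs
  have cXb : IsCoprime X (5 * X + 2) := cop_of_rel h2 (-5) 1 (by ring)
  have cXd : IsCoprime X (X + 4) := cop_of_rel (two_pow X 2 h2) (-1) 1 (by ring)
  have cab : IsCoprime (5 * X + 18) (5 * X + 2) :=
    cop_of_rel (two_pow _ 4 a2) 1 (-1) (by ring)
  have cad : IsCoprime (5 * X + 18) (X + 4) := cop_of_rel a2 (-1) 5 (by ring)
  have cXq : IsCoprime X (17 * X ^ 2 + 68 * X + 4) :=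
    cop_of_rel (two_pow X 2 h2) (-(17 * X + 68)) 1 (by ring)
  have cXr : IsCoprime X (21 * X ^ 2 + 84 * X + 20) := by
    have h20 : IsCoprime X (2 ^ 2 * 5) := (two_pow X 2 h2).mul_right h5
    exact cop_of_rel h20 (-(21 * X + 84)) 1 (by ring)
  have caq : IsCoprime (5 * X + 18) (17 * X ^ 2 + 68 * X + 4) :=
    cop_of_rel (two_pow _ 9 a2) (17 * (5 * X + 2)) (-25) (by ring)
  have car : IsCoprime (5 * X + 18) (21 * X ^ 2 + 84 * X + 20) :=
    cop_of_rel (two_pow _ 8 a2) (21 * (5 * X + 2)) (-25) (by ring)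
  have cbq : IsCoprime (5 * X + 2) (17 * X ^ 2 + 68 * X + 4) :=
    cop_of_rel (two_pow _ 9 b2) (17 * (5 * X + 18)) (-25) (by ring)
  have cbr : IsCoprime (5 * X + 2) (21 * X ^ 2 + 84 * X + 20) :=
    cop_of_rel (two_pow _ 8 b2) (21 * (5 * X + 18)) (-25) (by ring)
  have cdq : IsCoprime (X + 4) (17 * X ^ 2 + 68 * X + 4) :=
    cop_of_rel (two_pow _ 2 d2) (-(17 * X)) 1 (by ring)
  have cdr : IsCoprime (X + 4) (21 * X ^ 2 + 84 * X + 20) := by
    have h20 : IsCoprime (X + 4) (2 ^ 2 * 5) := (two_pow _ 2 d2).mul_right h5'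
    exact cop_of_rel h20 (-(21 * X)) 1 (by ring)
  have cqr : IsCoprime (17 * X ^ 2 + 68 * X + 4) (21 * X ^ 2 + 84 * X + 20) :=
    cop_of_rel (two_pow _ 8 q2) (-21) 17 (by ring)
  intro i j hij
  fin_cases i <;> fin_cases j <;> first
    | (exfalso; revert hij; decide)
    | skip
  · show IsCoprime ((5 * X + 18) ^ 5 * X ^ 4) (-((5 * X + 2) ^ 5 * (X + 4) ^ 4))
    exact (IsCoprime.mul_left ((cab.pow).mul_right (cad.pow))
      ((cXb.pow).mul_right (cXd.pow))).neg_right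
  · show IsCoprime ((5 * X + 18) ^ 5 * X ^ 4) (3 * (17 * X ^ 2 + 68 * X + 4) ^ 3)
    exact IsCoprime.mul_left (a3.pow_left.mul_right caq.pow) (x3.pow_left.mul_right cXq.pow)
  · show IsCoprime ((5 * X + 18) ^ 5 * X ^ 4) ((21 * X ^ 2 + 84 * X + 20) ^ 3)
    exact IsCoprime.mul_left car.pow cXr.pow
  · show IsCoprime (-((5 * X + 2) ^ 5 * (X + 4) ^ 4)) (3 * (17 * X ^ 2 + 68 * X + 4) ^ 3)
    exact (IsCoprime.mul_left (b3.pow_left.mul_right cbq.pow)
      (d3.pow_left.mul_right cdq.pow)).neg_left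
  · show IsCoprime (-((5 * X + 2) ^ 5 * (X + 4) ^ 4)) ((21 * X ^ 2 + 84 * X + 20) ^ 3)
    exact (IsCoprime.mul_left cbr.pow cdr.pow).neg_left
  · show IsCoprime (3 * (17 * X ^ 2 + 68 * X + 4) ^ 3) ((21 * X ^ 2 + 84 * X + 20) ^ 3)
    exact IsCoprime.mul_left (r3.symm.pow_right) cqr.pow

end Pool.Agent.Y912.SN4
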