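import Pool.Agent.Y912.SN4.Base
import Pool.Agent.TH285.SN.Asym

set_option autoImplicit false

/-!
# Radicals of the quadruples
-/

namespace Pool.Agent.Y912.SN4

open Pool.Agent.TH285.SN

/-- no non-empty proper sub-sum vanishes -/
def NoSub {n : ℕ} (x : Fin n → ℤ) : Prop :=
  ∀ S : Finset (Fin n), S.Nonempty → S ≠ Finset.univ → ∑ i ∈ S, x i ≠ 0

theorem quad_pos {X : ℤ} (hX : 0 < X) : 0 < quad X 0 ∧ 0 < quad X 2 ∧ 0 < quad X 3 ∧
    quad X 1 < 0 := by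
  refine ⟨?_, ?_, ?_, ?_⟩
  · show 0 < (5 * X + 18) ^ 5 * X ^ 4
    positivity
  · show 0 < 3 * (17 * X ^ 2 + 68 * X + 4) ^ 3
    positivity
  · show 0 < (21 * X ^ 2 + 84 * X + 20) ^ 3
    positivity
  · show -((5 * X + 2) ^ 5 * (X + 4) ^ 4) < 0
    rw [neg_lt_zero]; positivity

theorem noSub_quad {X : ℤ} (hX : 0 < X) : NoSub (quad X) := by
  obtain ⟨h0, h2, h3, h1⟩ := quad_pos hX
  have hpos : ∀ i : Fin 4, i ≠ 1 → 0 < quad X i := by
    intro i hi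
    fin_cases i
    · exact h0
    · exact absurd rfl hi
    · exact h2
    · exact h3
  intro S hS hne
  by_cases h1S : (1 : Fin 4) ∈ S
  · have hc : (Sᶜ : Finset (Fin 4)).Nonempty := by
      rw [Finset.nonempty_iff_ne_empty]
      intro h
      exact hne (by simpa using h)
    have hs : ∑ i ∈ S, quad X i + ∑ i ∈ Sᶜ, quad X i = 0 := by
      rw [Finset.sum_add_sum_compl, sum_quad]
    have hp : 0 < ∑ i ∈ Sᶜ, quad X i := by
      refine Finset.sum_pos (fun i hi => hpos i ?_) hc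
      rintro rfl
      exact (Finset.mem_compl.1 hi) h1S
    linarith
  · have hp : 0 < ∑ i ∈ S, quad X i := by
      refine Finset.sum_pos (fun i hi => hpos i ?_) hS
      rintro rfl
      exact h1S hi
    exact hp.ne'

theorem adm_quad {X : ℤ} (hX : 0 < X) (h2 : IsCoprime X 2) (h3 : (3 : ℤ) ∣ X - 1)
    (h5 : IsCoprime X 5) (h5' : IsCoprime (X + 4) 5) : Adm (quad X) := by
  obtain ⟨p0, p2, p3, p1⟩ := quad_pos hX
  refine ⟨?_, ?_, sum_quad X⟩
  · intro i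
    fin_cases i
    · exact p0.ne'
    · exact p1.ne
    · exact p2.ne'
    · exact p3.ne'
  · intro i j hij
    rw [← Int.isCoprime_iff_gcd_eq_one]
    rcases lt_or_gt_of_ne hij with h | h
    · exact quad_cop h2 h3 h5 h5' i j h
    · exact (quad_cop h2 h3 h5 h5' j i h).symm

/-- every prime factor of an entry divides this number -/
def wit (X w : ℕ) : ℕ :=
  7 * (11 * w) * ((5 * X + 18) * (5 * X + 2)) * 3 *
    ((17 * X ^ 2 + 68 * X + 4) * (21 * X ^ 2 + 84 * X + 20))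

theorem prime_dvd_wit {X w m e : ℕ} (he : X = 7 ^ e) (hw : X + 4 = 11 ^ (m + 1) * w)
    {p : ℕ} (hp : p.Prime) (i : Fin 4) (h : (p : ℤ) ∣ quad (X : ℤ) i) : p ∣ wit X w := by
  have hpI : Prime (p : ℤ) := Nat.prime_iff_prime_int.mp hp
  have key : ∀ a : ℕ, p ∣ a → a ∣ wit X w → p ∣ wit X w := fun a h1 h2 => h1.trans h2
  have cast : ∀ a : ℕ, (p : ℤ) ∣ (a : ℤ) → p ∣ a := fun a h => by exact_mod_cast h
  fin_cases i
  · have h0 : (p : ℤ) ∣ (5 * (X : ℤ) + 18) ^ 5 * (X : ℤ) ^ 4 := h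
    rcases hpI.dvd_or_dvd h0 with h1 | h1
    · have h2 := hpI.dvd_of_dvd_pow h1
      refine key (5 * X + 18) (cast _ (by push_cast; exact h2)) ?_
      exact ⟨7 * (11 * w) * (5 * X + 2) * 3 *
        ((17 * X ^ 2 + 68 * X + 4) * (21 * X ^ 2 + 84 * X + 20)), by unfold wit; ring⟩
    · have h2 := cast X (hpI.dvd_of_dvd_pow h1)
      rw [he] at h2
      refine key 7 (hp.dvd_of_dvd_pow h2) ?_
      exact ⟨(11 * w) * ((5 * X + 18) * (5 * X + 2)) * 3 *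
        ((17 * X ^ 2 + 68 * X + 4) * (21 * X ^ 2 + 84 * X + 20)), by unfold wit; ring⟩
  · have h0 : (p : ℤ) ∣ -((5 * (X : ℤ) + 2) ^ 5 * ((X : ℤ) + 4) ^ 4) := h
    rw [dvd_neg] at h0
    rcases hpI.dvd_or_dvd h0 with h1 | h1
    · have h2 := hpI.dvd_of_dvd_pow h1
      refine key (5 * X + 2) (cast _ (by push_cast; exact h2)) ?_
      exact ⟨7 * (11 * w) * (5 * X + 18) * 3 *
        ((17 * X ^ 2 + 68 * X + 4) * (21 * X ^ 2 + 84 * X + 20)), by unfold wit; ring⟩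
    · have h2 := cast (X + 4) (by push_cast; exact hpI.dvd_of_dvd_pow h1)
      rw [hw] at h2
      refine key (11 * w) ?_ ?_
      · rcases hp.dvd_mul.1 h2 with h4 | h4
        · exact Dvd.dvd.mul_right (hp.dvd_of_dvd_pow h4) w
        · exact Dvd.dvd.mul_left h4 11
      · exact ⟨7 * ((5 * X + 18) * (5 * X + 2)) * 3 *
          ((17 * X ^ 2 + 68 * X + 4) * (21 * X ^ 2 + 84 * X + 20)), by unfold wit; ring⟩
  · have h0 : (p : ℤ) ∣ 3 * (17 * (X : ℤ) ^ 2 + 68 * X + 4) ^ 3 := h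
    rcases hpI.dvd_or_dvd h0 with h1 | h1
    · refine key 3 (cast 3 (by exact_mod_cast h1)) ?_
      exact ⟨7 * (11 * w) * ((5 * X + 18) * (5 * X + 2)) *
        ((17 * X ^ 2 + 68 * X + 4) * (21 * X ^ 2 + 84 * X + 20)), by unfold wit; ring⟩
    · have h2 := hpI.dvd_of_dvd_pow h1
      refine key (17 * X ^ 2 + 68 * X + 4) (cast _ (by push_cast; exact h2)) ?_
      exact ⟨7 * (11 * w) * ((5 * X + 18) * (5 * X + 2)) * 3 *
        (21 * X ^ 2 + 84 * X + 20), by unfold wit; ring⟩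
  · have h0 : (p : ℤ) ∣ (21 * (X : ℤ) ^ 2 + 84 * X + 20) ^ 3 := h
    have h2 := hpI.dvd_of_dvd_pow h0
    refine key (21 * X ^ 2 + 84 * X + 20) (cast _ (by push_cast; exact h2)) ?_
    exact ⟨7 * (11 * w) * ((5 * X + 18) * (5 * X + 2)) * 3 *
      (17 * X ^ 2 + 68 * X + 4), by unfold wit; ring⟩

/-- the exponents -/
theorem exists_exp (m : ℕ) : ∃ k : ℕ, k < 11 ^ m ∧
    (11 : ℤ) ^ (m + 1) ∣ (7 : ℤ) ^ (1 + 10 * k) + 4 := by
  obtain ⟨k, hk, h⟩ := lift (q := 11) (by norm_num) (by norm_num) (g := (7 : ℤ) ^ 10)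
    (b := ((7 : ℤ) ^ 10 - 1) / 11) (by norm_num) (by norm_num) (A := (7 : ℤ)) (B := -4)
    (by norm_num) (by norm_num) m
  refine ⟨k, hk, ?_⟩
  rw [pow_add (7 : ℤ), pow_mul (7 : ℤ), pow_one]
  have e : (7 : ℤ) * (7 ^ 10) ^ k - -4 = 7 * (7 ^ 10) ^ k + 4 := by ring
  rw [e] at h
  exact_mod_cast h

/-- the constant in the bound of the radical -/
def cC : ℕ := 7 * 11 * 3 * 8 * 6 * 2 * 28 * 34

/-- For every `m` there is an admissible quadruple without vanishing sub-sums and with first entry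
at least `X ^ 9`, with `rad * 11 ^ (m + 1) ≤ C X ^ 7` and `11 ^ (m + 1) < 2 X`,
`X ≤ 7 ^ (10 * 11 ^ m)`. -/
theorem exists_quad (m : ℕ) :
    ∃ X : ℕ, Adm (quad (X : ℤ)) ∧ NoSub (quad (X : ℤ)) ∧ (X : ℤ) ^ 9 ≤ quad (X : ℤ) 0 ∧
      rad (quad (X : ℤ)) * 11 ^ (m + 1) ≤ cC * X ^ 7 ∧ 11 ^ (m + 1) ≤ 2 * X ∧
      X ≤ 7 ^ (10 * 11 ^ m) ∧ 1 ≤ X := by
  obtain ⟨k, hk, h⟩ := exists_exp m
  set e : ℕ := 1 + 10 * k with he
  set X : ℕ := 7 ^ e with hX
  have h7 : 7 ≤ X := by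
    rw [hX]
    calc 7 = 7 ^ 1 := by norm_num
      _ ≤ 7 ^ e := Nat.pow_le_pow_right (by norm_num) (by omega)
  obtain ⟨w, hw⟩ : (11 : ℕ) ^ (m + 1) ∣ X + 4 := by
    have h1 : ((11 ^ (m + 1) : ℕ) : ℤ) ∣ ((X + 4 : ℕ) : ℤ) := by
      rw [hX]
      push_cast
      exact h
    exact_mod_cast h1
  have hw0 : 0 < w := by
    rcases Nat.eq_zero_or_pos w with h1 | h1
    · rw [h1] at hw; omega
    · exact h1
  have hXpos : (0 : ℤ) < X := by exact_mod_cast (by omega : 0 < X)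
  have c2 : IsCoprime (X : ℤ) 2 := by
    rw [hX]; push_cast
    exact (by norm_num : IsCoprime (7 : ℤ) 2).pow_left
  have c5 : IsCoprime (X : ℤ) 5 := by
    rw [hX]; push_cast
    exact (by norm_num : IsCoprime (7 : ℤ) 5).pow_left
  have c3 : (3 : ℤ) ∣ X - 1 := by
    have h1 : 7 ^ e ≡ 1 ^ e [MOD 3] := Nat.ModEq.pow e (by decide)
    rw [one_pow] at h1
    have := Nat.modEq_iff_dvd.mp h1.symm
    rw [hX]
    push_cast at this ⊢
    exact this
  have c5' : IsCoprime ((X : ℤ) + 4) 5 := by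
    -- `7 ^ (1 + 10 k) = 7 * (7 ^ 10) ^ k ≡ 7 * (-1) ^ k`
    have h1 : (5 : ℤ) ∣ (X : ℤ) - 7 * (-1) ^ k := by
      have h2 : (7 : ℤ) ^ 10 ≡ -1 [ZMOD 5] := by decide
      have h3 : (7 : ℤ) * (7 ^ 10) ^ k ≡ 7 * (-1) ^ k [ZMOD 5] := (h2.pow k).mul_left 7
      have h4 := h3.symm.dvd
      rw [hX, he]
      push_cast
      rw [pow_add, pow_mul, pow_one]
      exact h4
    obtain ⟨z, hz⟩ := h1
    have hX' : (X : ℤ) = 7 * (-1) ^ k + 5 * z := by linarith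
    rw [hX']
    rcases neg_one_pow_eq_or ℤ k with h2 | h2
    · rw [h2]
      have := (by norm_num : IsCoprime (11 : ℤ) 5).add_mul_left_left z
      have e1 : (7 : ℤ) * 1 + 5 * z + 4 = 11 + 5 * z := by ring
      rwa [e1]
    · rw [h2]
      have := (by norm_num : IsCoprime (-3 : ℤ) 5).add_mul_left_left z
      have e1 : (7 : ℤ) * -1 + 5 * z + 4 = -3 + 5 * z := by ring
      rwa [e1]
  refine ⟨X, adm_quad hXpos c2 c3 c5 c5', noSub_quad hXpos, ?_, ?_, ?_, ?_, by omega⟩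
  · show (X : ℤ) ^ 9 ≤ (5 * (X : ℤ) + 18) ^ 5 * (X : ℤ) ^ 4
    have h1 : (X : ℤ) ^ 5 ≤ (5 * (X : ℤ) + 18) ^ 5 :=
      pow_le_pow_left₀ hXpos.le (by linarith) 5
    have h2 : (0 : ℤ) ≤ (X : ℤ) ^ 4 := by positivity
    calc (X : ℤ) ^ 9 = (X : ℤ) ^ 5 * (X : ℤ) ^ 4 := by ring
      _ ≤ _ := mul_le_mul_of_nonneg_right h1 h2
  · have h1 : rad (quad (X : ℤ)) ≤ wit X w :=
      rad_le_of _ _ (by unfold wit; positivity) fun p hp i hi =>
        prime_dvd_wit hX hw hp i hi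
    have h2 : w * 11 ^ (m + 1) ≤ 2 * X := by
      rw [mul_comm, ← hw]; omega
    have h3 : 5 * X + 18 ≤ 8 * X := by omega
    have h4 : 5 * X + 2 ≤ 6 * X := by omega
    have h5 : 17 * X ^ 2 + 68 * X + 4 ≤ 28 * X ^ 2 := by nlinarith
    have h6 : 21 * X ^ 2 + 84 * X + 20 ≤ 34 * X ^ 2 := by nlinarith
    calc rad (quad (X : ℤ)) * 11 ^ (m + 1)
        ≤ wit X w * 11 ^ (m + 1) := Nat.mul_le_mul_right _ h1
      _ = 7 * 11 * 3 * (w * 11 ^ (m + 1)) * ((5 * X + 18) * (5 * X + 2)) *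
          ((17 * X ^ 2 + 68 * X + 4) * (21 * X ^ 2 + 84 * X + 20)) := by unfold wit; ring
      _ ≤ 7 * 11 * 3 * (2 * X) * ((8 * X) * (6 * X)) * ((28 * X ^ 2) * (34 * X ^ 2)) := by
          gcongr
      _ = cC * X ^ 7 := by unfold cC; ring
  · have h1 : 11 ^ (m + 1) ≤ X + 4 := by
      rw [hw]; exact Nat.le_mul_of_pos_right _ hw0
    omega
  · rw [hX]
    apply Nat.pow_le_pow_right (by norm_num)
    have : 1 ≤ 11 ^ m := Nat.one_le_pow _ _ (by norm_num)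
    omega

/-- the set of good quadruples is infinite -/
theorem main : ∃ c : ℝ, 0 < c ∧
    {x : Fin 4 → ℤ | (Adm x ∧ NoSub x) ∧
      ∃ j, c * ((rad x : ℝ) * Real.log (rad x)) ^ (9 / 7 : ℝ) ≤ |((x j : ℤ) : ℝ)|}.Infinite := by
  set W : ℝ := ((cC : ℝ) * (Real.log cC + (7 : ℕ) * (10 : ℕ) * Real.log (7 : ℕ))) ^
      (((9 : ℕ) : ℝ) / (7 : ℕ)) with hW
  have hcC : (1 : ℕ) ≤ cC := by unfold cC; norm_num
  have hcC' : (1 : ℝ) ≤ cC := by exact_mod_cast hcC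
  have hWpos : 0 < W := by
    rw [hW]
    apply Real.rpow_pos_of_pos
    have h1 : 0 ≤ Real.log cC := Real.log_nonneg hcC'
    have h2 : 0 < Real.log (7 : ℕ) := Real.log_pos (by norm_num)
    have h4 : 0 < ((7 : ℕ) : ℝ) * ((10 : ℕ) : ℝ) * Real.log (7 : ℕ) := by positivity
    have h5 : 0 < Real.log cC + ((7 : ℕ) : ℝ) * ((10 : ℕ) : ℝ) * Real.log (7 : ℕ) := by
      linarith
    exact mul_pos (by linarith) h5
  refine ⟨W⁻¹, inv_pos.2 hWpos, infinite_of _ 0 fun N => ?_⟩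
  obtain ⟨X, hadm, hns, hx0, hr, hX1, hX2, hXpos⟩ := exists_quad (N + 1)
  have hN : N < X := by
    have h3 : N + 1 + 1 < 11 ^ (N + 1 + 1) := Nat.lt_pow_self (by norm_num)
    have h4 : 2 * (N + 1) ≤ 11 ^ (N + 1 + 1) := by
      have h5 : N + 1 < 11 ^ (N + 1) := Nat.lt_pow_self (by norm_num)
      calc 2 * (N + 1) ≤ 11 * 11 ^ (N + 1) := by omega
        _ = 11 ^ (N + 1 + 1) := by rw [pow_succ 11 (N + 1)]; ring
    omega
  refine ⟨quad X, ⟨⟨hadm, hns⟩, 0, ?_⟩, ?_⟩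
  · have h := asym (d := 9) (s := 7) (by norm_num) hcC (by norm_num : 1 ≤ 7)
      (by norm_num : 1 ≤ 11) (one_le_rad _) hXpos hr hX2
    have hx0' : ((X : ℝ)) ^ 9 ≤ ((quad (X : ℤ) 0 : ℤ) : ℝ) := by exact_mod_cast hx0
    have hge : ((X : ℝ)) ^ 9 ≤ |((quad (X : ℤ) 0 : ℤ) : ℝ)| := hx0'.trans (le_abs_self _)
    refine le_trans ?_ hge
    rw [inv_mul_le_iff₀ hWpos]
    have e : W = ((cC : ℝ) * (Real.log cC + 7 * 10 * Real.log 7)) ^ ((9 : ℝ) / 7) := by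
      rw [hW]; push_cast; rfl
    rw [e]
    push_cast at h
    exact h
  · have h1 : (X : ℤ) ^ 9 ≤ quad (X : ℤ) 0 := hx0
    have h2 : (X : ℤ) ≤ (X : ℤ) ^ 9 := by
      have : (1 : ℤ) ≤ X := by exact_mod_cast hXpos
      exact le_self_pow₀ this (by norm_num)
    have h3 : (N : ℤ) < quad (X : ℤ) 0 := by
      have : (N : ℤ) < X := by exact_mod_cast hN
      linarith
    omega

theorem strict_gen {n : ℕ} (Q : (Fin n → ℤ) → Prop) {q c : ℝ} (hq : 0 < q) (hc : 0 < c)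
    (hinf : {x : Fin n → ℤ | Q x ∧
      ∃ j, c * ((rad x : ℝ) * Real.log (rad x)) ^ q ≤ |((x j : ℤ) : ℝ)|}.Infinite) (M K : ℝ)
    (hfin : {x : Fin n → ℤ | Q x ∧
      ¬ ∀ j, |((x j : ℤ) : ℝ)| ≤ K * (rad x : ℝ) ^ M}.Finite) : q < M := by
  by_contra hcon
  rw [not_lt] at hcon
  set T : ℝ := (|K| / c) ^ (1 / q) with hT
  set U : ℝ := |K| * (Real.exp T) ^ q with hU
  refine hinf ?_
  have hsub : {x : Fin n → ℤ | Q x ∧
      ∃ j, c * ((rad x : ℝ) * Real.log (rad x)) ^ q ≤ |((x j : ℤ) : ℝ)|} ⊆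
      {x : Fin n → ℤ | Q x ∧ ¬ ∀ j, |((x j : ℤ) : ℝ)| ≤ K * (rad x : ℝ) ^ M} ∪
        Set.Icc (fun _ => -⌈U⌉) (fun _ => ⌈U⌉) := by
    rintro x ⟨hx, j, hj⟩
    by_cases hall : ∀ j, |((x j : ℤ) : ℝ)| ≤ K * (rad x : ℝ) ^ M
    · right
      have hR : (1 : ℝ) ≤ rad x := by exact_mod_cast one_le_rad x
      have hl : 0 ≤ Real.log (rad x) := Real.log_nonneg hR
      have hRq : 0 < (rad x : ℝ) ^ q := Real.rpow_pos_of_pos (by linarith) q
      have hbd : ∀ j, |((x j : ℤ) : ℝ)| ≤ |K| * (rad x : ℝ) ^ q := by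
        intro i
        refine (hall i).trans ?_
        have h1 : (rad x : ℝ) ^ M ≤ (rad x : ℝ) ^ q := Real.rpow_le_rpow_of_exponent_le hR hcon
        have h2 : 0 ≤ (rad x : ℝ) ^ M := Real.rpow_nonneg (by linarith) _
        calc K * (rad x : ℝ) ^ M ≤ |K| * (rad x : ℝ) ^ M :=
              mul_le_mul_of_nonneg_right (le_abs_self K) h2
          _ ≤ |K| * (rad x : ℝ) ^ q := mul_le_mul_of_nonneg_left h1 (abs_nonneg K)
      have h3 : c * Real.log (rad x) ^ q ≤ |K| := by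
        have h4 := hj.trans (hbd j)
        rw [Real.mul_rpow (by linarith) hl] at h4
        have h5 : (c * Real.log (rad x) ^ q) * (rad x : ℝ) ^ q ≤ |K| * (rad x : ℝ) ^ q := by
          calc (c * Real.log (rad x) ^ q) * (rad x : ℝ) ^ q
              = c * ((rad x : ℝ) ^ q * Real.log (rad x) ^ q) := by ring
            _ ≤ _ := h4
        exact le_of_mul_le_mul_right h5 hRq
      have h6 : Real.log (rad x) ≤ T := by
        have h7 : Real.log (rad x) ^ q ≤ |K| / c := by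
          rw [le_div_iff₀ hc]; linarith
        have h8 := Real.rpow_le_rpow (Real.rpow_nonneg hl q) h7 (by positivity : 0 ≤ 1 / q)
        rw [← Real.rpow_mul hl, mul_one_div_cancel hq.ne', Real.rpow_one] at h8
        exact h8
      have h9 : (rad x : ℝ) ≤ Real.exp T := (Real.log_le_iff_le_exp (by linarith)).1 h6
      have h10 : ∀ i, |((x i : ℤ) : ℝ)| ≤ U := by
        intro i
        refine (hbd i).trans ?_
        rw [hU]
        exact mul_le_mul_of_nonneg_left (Real.rpow_le_rpow (by linarith) h9 hq.le) (abs_nonneg K)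
      refine ⟨fun i => ?_, fun i => ?_⟩
      · have h11 := (abs_le.1 (h10 i)).1
        have h12 : -((⌈U⌉ : ℤ) : ℝ) ≤ ((x i : ℤ) : ℝ) := by
          have := Int.le_ceil U
          linarith
        show -⌈U⌉ ≤ x i
        exact_mod_cast h12
      · have h11 := (abs_le.1 (h10 i)).2
        have h12 : ((x i : ℤ) : ℝ) ≤ ((⌈U⌉ : ℤ) : ℝ) := by
          have := Int.le_ceil U
          linarith
        show x i ≤ ⌈U⌉
        exact_mod_cast h12
    · exact Or.inl ⟨hx, hall⟩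
  exact (hfin.union (Set.finite_Icc _ _)).subset hsub

end Pool.Agent.Y912.SN4
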